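import Pool.Agent.Lib.TWLY.C
import Mathlib.LinearAlgebra.Dual.Lemmas

/-!
# CT, j = 1: the Vandermonde argument in two variables

* `exists_ev`: the coefficients of the polynomials with support in `S` are combinations of values at
  points of `k²`;
* `vand_ge2`, `vand_gt2`: a polynomial over `Ω` whose values at the points of `k²` are large has large
  coefficients.
-/

set_option autoImplicit false

open MvPolynomial

namespace Pool.Agent.TWPL

open Pool.Agent.H15JM (RVal)
open Pool.Agent.D2 (Ctx0)
open Pool.Agent.TWM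
open Pool.Agent.TWLY (Ex)

universe u

variable {k Ω : Type u} [Field k] [Field Ω] [Algebra k Ω] {v : RVal Ω}

/-- The point `c ∈ k²` in `Ω²`. -/
def ptk (Ω : Type u) [Field Ω] [Algebra k Ω] (c : Fin 2 → k) : Fin 2 → Ω :=
  fun i => algebraMap k Ω (c i)

/-- **The coefficients are combinations of the values at points of `k²`.** -/
theorem exists_ev [Infinite k] (S : Finset Ex) (β : Ex) : ∃ a : (Fin 2 → k) →₀ k,
    ∀ f : MvPolynomial (Fin 2) k, f.support ⊆ S → coeff β f = a.sum fun h c => c * eval h f := by
  classical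
  set V : Submodule k (MvPolynomial (Fin 2) k) := restrictSupport k (S : Set Ex) with hV
  have hfin : FiniteDimensional k V := Module.Finite.of_basis (basisRestrictSupport k (S : Set Ex))
  -- the values
  let ev : (Fin 2 → k) → Module.Dual k V := fun h =>
    (MvPolynomial.aeval (R := k) h).toLinearMap.comp V.subtype
  let co : Module.Dual k V := (MvPolynomial.lcoeff k β).comp V.subtype
  have h1 : (Submodule.span k (Set.range ev)).dualCoannihilator = ⊥ := by
    rw [eq_bot_iff]
    intro f hf
    rw [Submodule.mem_dualCoannihilator] at hf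
    have h2 : (f : MvPolynomial (Fin 2) k) = 0 := MvPolynomial.funext fun h => by
      have h3 := hf (ev h) (Submodule.subset_span ⟨h, rfl⟩)
      rw [map_zero, ← h3]
      change _ = MvPolynomial.aeval h (f : MvPolynomial (Fin 2) k)
      rw [← MvPolynomial.coe_aeval_eq_eval]
      rfl
    rw [Submodule.mem_bot]
    exact Subtype.ext h2
  have h2 : co ∈ Submodule.span k (Set.range ev) := by
    rw [← Subspace.dualCoannihilator_dualAnnihilator_eq (W := Submodule.span k (Set.range ev)), h1,
      Submodule.dualAnnihilator_bot]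
    exact Submodule.mem_top
  obtain ⟨a, ha⟩ := Finsupp.mem_span_range_iff_exists_finsupp.1 h2
  refine ⟨a, fun f hf => ?_⟩
  have hfV : f ∈ V := by
    rw [hV, mem_restrictSupport_iff]
    exact_mod_cast hf
  have h3 := LinearMap.congr_fun ha ⟨f, hfV⟩
  change _ = coeff β f at h3
  rw [← h3, Finsupp.sum, Finsupp.sum, LinearMap.sum_apply]
  refine Finset.sum_congr rfl fun h _ => ?_
  rw [LinearMap.smul_apply, smul_eq_mul]
  congr 1

/-- The coefficients of a polynomial over `Ω`. -/
theorem coeff_eq_ev [Infinite k] (F : MvPolynomial (Fin 2) Ω) (β : Ex) :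
    ∃ a : (Fin 2 → k) →₀ k,
      coeff β F = a.sum fun h c => algebraMap k Ω c * eval (ptk Ω h) F := by
  classical
  obtain ⟨a, ha⟩ := exists_ev (k := k) F.support β
  refine ⟨a, ?_⟩
  have h1 : ∀ h : Fin 2 → k, eval (ptk Ω h) F =
      ∑ g ∈ F.support, coeff g F * algebraMap k Ω (eval h (monomial g (1 : k))) := by
    intro h
    rw [eval_eq']
    refine Finset.sum_congr rfl fun g _ => ?_
    rw [eval_monomial, one_mul, Finsupp.prod_fintype _ _ fun i => pow_zero _, map_prod]
    simp only [map_pow]
    rfl
  have h2 : ∀ g ∈ F.support, a.sum (fun h c => c * eval h (monomial g (1 : k))) =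
      if g = β then 1 else 0 := by
    intro g hg
    rw [← ha (monomial g 1) ((support_monomial_subset).trans (Finset.singleton_subset_iff.2 hg)),
      coeff_monomial]
  rw [Finsupp.sum]
  simp only [h1, Finset.mul_sum]
  rw [Finset.sum_comm]
  have h3 : ∀ g ∈ F.support, ∑ h ∈ a.support, algebraMap k Ω (a h) *
      (coeff g F * algebraMap k Ω (eval h (monomial g (1 : k)))) =
      if g = β then coeff g F else 0 := by
    intro g hg
    have h4 : ∑ h ∈ a.support, algebraMap k Ω (a h) *
        (coeff g F * algebraMap k Ω (eval h (monomial g (1 : k)))) =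
        coeff g F * algebraMap k Ω (a.sum fun h c => c * eval h (monomial g (1 : k))) := by
      rw [Finsupp.sum, map_sum, Finset.mul_sum]
      refine Finset.sum_congr rfl fun h _ => ?_
      rw [map_mul]
      ring
    rw [h4, h2 g hg]
    split_ifs
    · rw [map_one, mul_one]
    · rw [map_zero, mul_zero]
  rw [Finset.sum_congr rfl h3, Finset.sum_ite_eq']
  split_ifs with h5
  · rfl
  · exact notMem_support_iff.1 h5

/-- **Vandermonde**, weak. -/
theorem vand_ge2 [Infinite k] (h0 : Ctx0 k v) {F : MvPolynomial (Fin 2) Ω} {r : ℝ}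
    (h : ∀ c : Fin 2 → k, v.Ge r (eval (ptk Ω c) F)) (β : Ex) : v.Ge r (coeff β F) := by
  obtain ⟨a, ha⟩ := coeff_eq_ev (k := k) F β
  rw [ha, Finsupp.sum]
  refine RVal.Ge.sum _ _ fun c _ => ?_
  have := (h0.ge (a c)).mul (h c)
  rwa [zero_add] at this

/-- **Vandermonde**, strict. -/
theorem vand_gt2 [Infinite k] (h0 : Ctx0 k v) {F : MvPolynomial (Fin 2) Ω} {r : ℝ}
    (h : ∀ c : Fin 2 → k, Gt v r (eval (ptk Ω c) F)) (β : Ex) : Gt v r (coeff β F) := by
  obtain ⟨a, ha⟩ := coeff_eq_ev (k := k) F β
  rw [ha, Finsupp.sum]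
  refine Gt.sum _ _ fun c _ => ?_
  have := (h c).mul_ge (h0.ge (a c))
  rwa [add_zero, mul_comm] at this

end Pool.Agent.TWPL
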